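import Pool.Agent.W787.KG.Defs

/-! # Positivity: the maximum principle on the whole space -/

set_option autoImplicit false

open MeasureTheory Set Metric Filter Topology Real
open scoped ContDiff

noncomputable section

namespace Pool.Agent.W863.KG
open Pool.Agent.W787.KG

/-- necessary conditions of first and second order -/
theorem dd_nonneg {f f' : ℝ → ℝ} {c d : ℝ} (h1 : ∀ s, HasDerivAt f (f' s) s)
    (h2 : HasDerivAt f' d c) (hm : ∀ s, f c ≤ f s) : 0 ≤ d := by
  have hmin : IsLocalMin f c := Filter.Eventually.of_forall hm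
  have e0 : f' c = 0 := hmin.hasDerivAt_eq_zero (h1 c)
  by_contra hd
  push Not at hd
  have hf' : deriv f = f' := funext fun s => (h1 s).deriv
  have hmax : IsLocalMax f c := by
    apply isLocalMax_of_deriv_deriv_neg
    · rw [hf', h2.deriv]; exact hd
    · rw [hf']; exact e0
    · exact (h1 c).continuousAt
  have hconst : f =ᶠ[𝓝 c] fun _ => f c := by
    filter_upwards [hmax] with s hs
    exact le_antisymm hs (hm s)
  have h3 : f' =ᶠ[𝓝 c] fun _ => 0 := by
    filter_upwards [hconst.eventuallyEq_nhds] with y hy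
    exact ((h1 y).congr_of_eventuallyEq hy.symm).unique (hasDerivAt_const y (f c))
  have h5 : d = 0 := (h2.congr_of_eventuallyEq h3.symm).unique (hasDerivAt_const c 0)
  linarith

theorem left_nonpos {f : ℝ → ℝ} {t d : ℝ} (h : HasDerivAt f d t) (ht : 0 < t)
    (hm : ∀ s, 0 < s → s ≤ t → f t ≤ f s) : d ≤ 0 := by
  have h1 := (hasDerivAt_iff_tendsto_slope.1 h).mono_left
    (nhdsWithin_mono t (fun s (hs : s ∈ Iio t) => (ne_of_lt hs : s ≠ t)))
  refine le_of_tendsto h1 ?_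
  filter_upwards [Ioo_mem_nhdsLT ht] with s hs
  rw [slope_def_field]
  exact div_nonpos_of_nonneg_of_nonpos (sub_nonneg.2 (hm s hs.1 hs.2.le))
    (sub_nonpos.2 hs.2.le)

/-- the conditions at a minimum in space -/
theorem space {g : E → ℝ} (hg : ContDiff ℝ 2 g) {a b : ℝ} {x₀ : E}
    (hm : ∀ x, a * g x₀ + b * (1 + ‖x₀‖ ^ 2) ≤ a * g x + b * (1 + ‖x‖ ^ 2)) :
    (∀ v, a * fderiv ℝ g x₀ v + b * (2 * inner ℝ x₀ v) = 0) ∧
    0 ≤ a * (∑ i : Fin 3, iteratedFDeriv ℝ 2 g x₀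
        ![EuclideanSpace.single i (1 : ℝ), EuclideanSpace.single i (1 : ℝ)]) + 6 * b := by
  have hD : ∀ x, HasFDerivAt g (fderiv ℝ g x) x := fun x =>
    (hg.differentiable (by norm_num) x).hasFDerivAt
  have hG : ∀ x, HasFDerivAt (fun x => a * g x + b * (1 + ‖x‖ ^ 2))
      (a • fderiv ℝ g x + b • (2 • innerSL ℝ x)) x := fun x =>
    ((hD x).const_mul a).add (((hasStrictFDerivAt_norm_sq x).hasFDerivAt.const_add 1).const_mul b)
  have hmin : IsLocalMin (fun x => a * g x + b * (1 + ‖x‖ ^ 2)) x₀ :=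
    Filter.Eventually.of_forall hm
  refine ⟨fun v => ?_, ?_⟩
  · have h1 := congrArg (fun f : E →L[ℝ] ℝ => f v) (hmin.hasFDerivAt_eq_zero (hG x₀))
    simpa using h1
  · have hD2 : DifferentiableAt ℝ (fderiv ℝ g) x₀ :=
      (hg.fderiv_right (m := 1) (by norm_num)).differentiable (by norm_num) x₀
    have key : ∀ i : Fin 3, 0 ≤ a * iteratedFDeriv ℝ 2 g x₀
        ![EuclideanSpace.single i (1 : ℝ), EuclideanSpace.single i (1 : ℝ)] + 2 * b := by
      intro i
      set u : E := EuclideanSpace.single i (1 : ℝ) with hu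
      have hgam : ∀ s : ℝ, HasDerivAt (fun s : ℝ => x₀ + s • u) u s := by
        intro s
        simpa using ((hasDerivAt_id s).smul_const u).const_add x₀
      have h1 : ∀ s : ℝ, HasDerivAt (fun s : ℝ => a * g (x₀ + s • u) +
          b * (1 + ‖x₀ + s • u‖ ^ 2))
          (a * fderiv ℝ g (x₀ + s • u) u + b * (2 * inner ℝ (x₀ + s • u) u)) s := by
        intro s
        have h := (hG (x₀ + s • u)).comp_hasDerivAt s (hgam s)
        refine h.congr_deriv ?_
        simp only [ContinuousLinearMap.add_apply, ContinuousLinearMap.smul_apply,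
          innerSL_apply_apply, smul_eq_mul, nsmul_eq_mul, Nat.cast_ofNat]
      have h2 : HasDerivAt (fun s : ℝ => a * fderiv ℝ g (x₀ + s • u) u +
          b * (2 * inner ℝ (x₀ + s • u) u))
          (a * fderiv ℝ (fderiv ℝ g) x₀ u u + b * (2 * inner ℝ u u)) 0 := by
        have h3 : HasDerivAt (fun s : ℝ => fderiv ℝ g (x₀ + s • u))
            (fderiv ℝ (fderiv ℝ g) x₀ u) 0 := by
          have h4 : HasFDerivAt (fderiv ℝ g) (fderiv ℝ (fderiv ℝ g) x₀) (x₀ + (0 : ℝ) • u) := by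
            rw [zero_smul, add_zero]
            exact hD2.hasFDerivAt
          exact h4.comp_hasDerivAt 0 (hgam 0)
        have h5 : HasDerivAt (fun s : ℝ => fderiv ℝ g (x₀ + s • u) u)
            (fderiv ℝ (fderiv ℝ g) x₀ u u) 0 := by
          simpa using h3.clm_apply (hasDerivAt_const (0 : ℝ) u)
        have h6 : HasDerivAt (fun s : ℝ => inner ℝ (x₀ + s • u) u) (inner ℝ u u) 0 := by
          have h7 := (hgam 0).inner ℝ (hasDerivAt_const (0 : ℝ) u)
          simpa using h7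
        exact (h5.const_mul a).add ((h6.const_mul 2).const_mul b)
      have h3 := dd_nonneg h1 h2 (fun s => by
        have := hm (x₀ + s • u)
        simpa using this)
      rw [iteratedFDeriv_two_apply]
      have h4 : inner ℝ u u = (1 : ℝ) := by
        rw [real_inner_self_eq_norm_sq, hu]
        simp
      rw [h4] at h3
      have h5 : fderiv ℝ (fderiv ℝ g) x₀ (![u, u] 0) (![u, u] 1) =
        fderiv ℝ (fderiv ℝ g) x₀ u u := rfl
      rw [h5]
      linarith
    have hs := Finset.sum_nonneg (s := Finset.univ) fun (i : Fin 3) _ => key i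
    rw [Finset.sum_add_distrib, ← Finset.mul_sum, Finset.sum_const] at hs
    simp only [Finset.card_univ, Fintype.card_fin, nsmul_eq_mul] at hs
    push_cast at hs
    linarith

/-- **positivity** -/
theorem pos : S_POS := by
  intro n V C hc hd hb h0 hpde
  by_contra hcon
  push Not at hcon
  obtain ⟨t₁, x₁, ht₁, hn₁⟩ := hcon
  have hC : 0 ≤ C := (abs_nonneg _).trans (hb 0 0 le_rfl).1
  set K : ℝ := C + 1 with hK
  set M : ℝ := 12 + 4 * C with hM
  have hq : ∀ x : E, 0 < 1 + ‖x‖ ^ 2 := fun x => by positivity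
  obtain ⟨δ, hδ, hw₁⟩ : ∃ δ : ℝ, 0 < δ ∧
      exp (-K * t₁) * n t₁ x₁ + δ * exp (M * t₁) * (1 + ‖x₁‖ ^ 2) < 0 := by
    refine ⟨-(exp (-K * t₁) * n t₁ x₁) / (2 * (exp (M * t₁) * (1 + ‖x₁‖ ^ 2))), ?_, ?_⟩
    · apply div_pos
      · rw [neg_pos]
        exact mul_neg_of_pos_of_neg (exp_pos _) hn₁
      · have := hq x₁
        positivity
    · have h1 : (exp (M * t₁) * (1 + ‖x₁‖ ^ 2)) ≠ 0 := (mul_pos (exp_pos _) (hq x₁)).ne'
      have h2 : -(exp (-K * t₁) * n t₁ x₁) / (2 * (exp (M * t₁) * (1 + ‖x₁‖ ^ 2))) *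
          exp (M * t₁) * (1 + ‖x₁‖ ^ 2) = -(exp (-K * t₁) * n t₁ x₁) / 2 := by
        field_simp
      rw [h2]
      have h3 := mul_neg_of_pos_of_neg (exp_pos (-K * t₁)) hn₁
      linarith
  set w : ℝ × E → ℝ := fun z => exp (-K * z.1) * n z.1 z.2 +
    δ * exp (M * z.1) * (1 + ‖z.2‖ ^ 2) with hw
  have hwc : ContinuousOn w (Ici (0 : ℝ) ×ˢ univ) := by
    apply ContinuousOn.add
    · apply ContinuousOn.mul _ hc
      exact (Real.continuous_exp.comp (continuous_const.mul continuous_fst)).continuousOn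
    · apply Continuous.continuousOn
      fun_prop
  have hlow : ∀ t x, 0 ≤ t → -C + δ * (1 + ‖x‖ ^ 2) ≤ w (t, x) := by
    intro t x ht
    have h1 : exp (-K * t) ≤ 1 := by
      rw [Real.exp_le_one_iff]
      have : 0 ≤ K * t := by positivity
      linarith
    have h2 : 1 ≤ exp (M * t) := by
      rw [Real.one_le_exp_iff]
      positivity
    have h3 := abs_le.1 (hb t x ht).1
    have h4 : -C ≤ exp (-K * t) * n t x := by
      have h5 : exp (-K * t) * (-C) ≤ exp (-K * t) * n t x :=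
        mul_le_mul_of_nonneg_left h3.1 (exp_pos _).le
      nlinarith [exp_pos (-K * t)]
    have h5 : δ * (1 + ‖x‖ ^ 2) ≤ δ * exp (M * t) * (1 + ‖x‖ ^ 2) := by
      have h6 : 0 ≤ δ * (1 + ‖x‖ ^ 2) := by positivity
      nlinarith
    exact add_le_add h4 h5
  obtain ⟨R, hR1, hR2⟩ : ∃ R : ℝ, ‖x₁‖ ≤ R ∧ ∀ x : E, R < ‖x‖ → 0 < -C + δ * (1 + ‖x‖ ^ 2) := by
    refine ⟨max ‖x₁‖ (C / δ + 1), le_max_left _ _, fun x hx => ?_⟩
    have h1 : C / δ + 1 < ‖x‖ := (le_max_right _ _).trans_lt hx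
    have h2 : 0 ≤ C / δ := by positivity
    have h3 : C / δ < 1 + ‖x‖ ^ 2 := by nlinarith
    rw [div_lt_iff₀ hδ] at h3
    linarith
  have hcomp : IsCompact (Icc (0 : ℝ) t₁ ×ˢ closedBall (0 : E) R) :=
    isCompact_Icc.prod (isCompact_closedBall _ _)
  have hmem₁ : ((t₁, x₁) : ℝ × E) ∈ Icc (0 : ℝ) t₁ ×ˢ closedBall (0 : E) R :=
    ⟨⟨ht₁, le_rfl⟩, by rw [mem_closedBall, dist_zero_right]; exact hR1⟩
  obtain ⟨⟨t₀, x₀⟩, hz₀, hmin⟩ := hcomp.exists_isMinOn ⟨_, hmem₁⟩
    (hwc.mono (prod_mono (fun t ht => ht.1) (subset_univ _)))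
  have hneg : w (t₀, x₀) < 0 := (hmin hmem₁).trans_lt hw₁
  have hglob : ∀ t x, 0 ≤ t → t ≤ t₁ → w (t₀, x₀) ≤ w (t, x) := by
    intro t x ht ht'
    by_cases hx : ‖x‖ ≤ R
    · exact hmin (show ((t, x) : ℝ × E) ∈ Icc (0 : ℝ) t₁ ×ˢ closedBall (0 : E) R from
        ⟨⟨ht, ht'⟩, by rw [mem_closedBall, dist_zero_right]; exact hx⟩)
    · push Not at hx
      exact (hneg.trans ((hR2 x hx).trans_le (hlow t x ht))).le
  have ht₀ : 0 < t₀ := by
    rcases hz₀.1.1.lt_or_eq with h | h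
    · exact h
    · exfalso
      have h' : (0 : ℝ) = t₀ := h
      rw [← h'] at hneg
      have h1 : w (0, x₀) = n 0 x₀ + δ * (1 + ‖x₀‖ ^ 2) := by
        simp [hw]
      rw [h1] at hneg
      have h2 := h0 x₀
      have h3 := mul_pos hδ (hq x₀)
      linarith
  have ht₀' : t₀ ≤ t₁ := hz₀.1.2
  have hCD : ∀ x : E, ContDiffAt ℝ 2 (fun z : ℝ × E => n z.1 z.2) (t₀, x) := fun x =>
    hd.contDiffAt ((isOpen_Ioi.prod isOpen_univ).mem_nhds ⟨ht₀, mem_univ _⟩)
  have hg : ContDiff ℝ 2 (n t₀) := by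
    rw [contDiff_iff_contDiffAt]
    intro x
    exact (hCD x).comp x (contDiffAt_const.prodMk contDiffAt_id)
  have hτ : HasDerivAt (fun s => n s x₀) (deriv (fun s => n s x₀) t₀) t₀ := by
    have h1 : ContDiffAt ℝ 2 (fun s => n s x₀) t₀ :=
      (hCD x₀).comp t₀ (contDiffAt_id.prodMk contDiffAt_const)
    exact (h1.differentiableAt (by norm_num)).hasDerivAt
  have hS := space hg (a := exp (-K * t₀)) (b := δ * exp (M * t₀)) (x₀ := x₀)
    (fun x => hglob t₀ x ht₀.le ht₀')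
  have hT : exp (-K * t₀) * (-K) * n t₀ x₀ + exp (-K * t₀) * deriv (fun s => n s x₀) t₀ +
      δ * (exp (M * t₀) * M) * (1 + ‖x₀‖ ^ 2) ≤ 0 := by
    refine left_nonpos (f := fun s => exp (-K * s) * n s x₀ +
      δ * exp (M * s) * (1 + ‖x₀‖ ^ 2)) ?_ ht₀
      (fun s hs hs' => hglob s x₀ hs.le (hs'.trans ht₀'))
    have e1 : HasDerivAt (fun s : ℝ => exp (-K * s)) (exp (-K * t₀) * (-K)) t₀ := by
      have := ((hasDerivAt_id t₀).const_mul (-K)).exp
      simpa using this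
    have e2 : HasDerivAt (fun s : ℝ => exp (M * s)) (exp (M * t₀) * M) t₀ := by
      have := ((hasDerivAt_id t₀).const_mul M).exp
      simpa using this
    exact (e1.mul hτ).add ((e2.const_mul δ).mul_const _)
  rw [hpde t₀ x₀ ht₀] at hT
  obtain ⟨hS1, hS2⟩ := hS
  have hS1 := hS1 (V t₀ x₀)
  have hV := (hb t₀ x₀ ht₀.le).2
  have hin := abs_le.1 ((abs_real_inner_le_norm x₀ (V t₀ x₀)).trans
    (mul_le_mul_of_nonneg_left hV (norm_nonneg _)))
  have ha : 0 < exp (-K * t₀) := exp_pos _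
  have hbp : 0 < δ * exp (M * t₀) := mul_pos hδ (exp_pos _)
  have hn : n t₀ x₀ < 0 := by
    by_contra hn
    push Not at hn
    have h1 : 0 ≤ w (t₀, x₀) := by
      have := hq x₀
      have h2 : 0 ≤ exp (-K * t₀) * n t₀ x₀ := mul_nonneg ha.le hn
      have h3 : 0 ≤ δ * exp (M * t₀) * (1 + ‖x₀‖ ^ 2) := by positivity
      exact add_nonneg h2 h3
    linarith
  have hr := norm_nonneg x₀
  set a := exp (-K * t₀) with ha'
  set q := exp (M * t₀) with hq'
  set r := ‖x₀‖ with hr'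
  set N := n t₀ x₀ with hN
  set I := inner ℝ x₀ (V t₀ x₀) with hI
  have h7 : 0 < a * (N ^ 2 - K * N) := by
    apply mul_pos ha
    have : 0 < K := by positivity
    nlinarith [mul_neg_of_pos_of_neg this hn, sq_nonneg N]
  have h8 : 0 < (δ * q) * (M * (1 + r ^ 2) - 6 + 2 * I) := by
    apply mul_pos hbp
    have h9 : 0 ≤ C * (1 + r ^ 2 - r) := mul_nonneg hC (by nlinarith [sq_nonneg (r - 1)])
    rw [hM]
    nlinarith [hin.1, mul_nonneg hC (sq_nonneg r), sq_nonneg r]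
  nlinarith [hT, hS1, hS2, h7, h8]

end Pool.Agent.W863.KG
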